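import Pool.Agent.Helper29_TDG.Stmts
import Pool.Agent.Helper53_TDG.Comp

/-!
# Total domination game, bound 2/3: module DX
-/

set_option autoImplicit false
set_option linter.unusedSectionVars false

namespace Pool.Agent.TDG.H41

open Finset Helper77.TDG Pool.Agent.TDG

theorem world_cover {V X : Type} [Fintype V] [DecidableEq V] [DecidableEq X] {N : V → Finset X}
    {Hv : Finset X} (hW : World N Hv) (x : X) : ∃ v, x ∈ N v := by
  have h : 0 < (univ.filter fun v => x ∈ N v).card := by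
    by_cases hx : x ∈ Hv
    · rw [hW.one x hx]
      exact one_pos
    · have := hW.two x hx
      omega
  obtain ⟨v, hv⟩ := card_pos.1 h
  exact ⟨v, (mem_filter.1 hv).2⟩

/-- DX: a light move followed by an extraction. -/
theorem dx (hMO : MOStmt) : DXStmt := by
  intro V X _ _ _ N Hv U Z v hW ih hv hvZ hZ
  have hZU : Z ⊆ U := hZ.trans sdiff_subset
  have h1 := ns_extract (world_cover hW) (U \ N v) (Z \ N v)
  have h2 : (U \ N v) \ (Z \ N v) = U \ Z := by
    ext x
    simp only [mem_sdiff]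
    constructor
    · rintro ⟨⟨h3, h4⟩, h5⟩
      exact ⟨h3, fun h6 => h5 ⟨h6, h4⟩⟩
    · rintro ⟨h3, h4⟩
      exact ⟨⟨h3, fun h5 => h4 (hvZ (mem_inter.2 ⟨h5, h3⟩))⟩, fun h5 => h4 h5.1⟩
  rw [h2] at h1
  have h3 : (Z \ N v).card + (N v ∩ U).card = Z.card := by
    have h4 : N v ∩ U = Z ∩ N v := by
      ext x
      simp only [mem_inter]
      constructor
      · intro h5
        exact ⟨hvZ (mem_inter.2 h5), h5.1⟩
      · intro h5
        exact ⟨h5.2, hZU h5.1⟩
    rw [h4]
    exact card_sdiff_add_card_inter Z (N v)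
  have hss : U \ Z ⊂ U := by
    obtain ⟨x, hx⟩ := hv
    refine Finset.ssubset_iff_subset_ne.2 ⟨sdiff_subset, fun h => ?_⟩
    have h5 : x ∈ U \ Z := by
      rw [h]
      exact (mem_inter.1 hx).2
    exact (mem_sdiff.1 h5).2 (hvZ hx)
  have h4 := ih (U \ Z) hss
  have h5 := hMO V X N Hv U Z hW hZ
  have h6 : ph N U Z = 2 * (Z.card : ℤ) - ((J N U Z).card : ℤ) := rfl
  rw [h6]
  omega

end Pool.Agent.TDG.H41
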