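import Pool.Agent.Helper29_TDG.Stmts
import Pool.Agent.Helper53_TDG.Comp

/-!
# Total domination game, bound 2/3: module FA
-/

set_option autoImplicit false
set_option linter.unusedSectionVars false

namespace Pool.Agent.TDG.H41

open Finset Helper77.TDG Pool.Agent.TDG

/-- FA: `F` is attained inside `A`. -/
theorem fa (hELA : ELAStmt) : FAStmt := by
  intro V X _ _ _ N Hv U A hW hA
  obtain ⟨T, hT, hT'⟩ := exists_F2 (N := N) (Hv := Hv) (U := U)
  obtain ⟨R', hTR, hR', h⟩ := hELA V X N Hv U A T hW hA hT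
  refine ⟨T ∩ A, inter_subset_right, le_antisymm ?_ ?_⟩
  · exact sf_le_F2 (inter_subset_left.trans hT)
  · have h1 := Gam_le_GG (N := N) hR'
    have h2 : (0 : ℤ) ≤ ((hitc N Hv U A T (T ∩ A)).card : ℤ) := by positivity
    rw [← hT']
    linarith

end Pool.Agent.TDG.H41
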